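import Pool.Agent.helper18.KU.Spec

/-! Module ku:GEN (helper11): generic numbers. -/

set_option autoImplicit false

namespace Pool.Agent.KU

open Finset

noncomputable section

theorem GEN : GEN_stmt := by
  intro B a b hab
  have hc : (⋃ y ∈ B, Set.range fun n : ℤ => y + (n : ℝ)).Countable :=
    Set.Countable.biUnion (Finset.countable_toSet B) fun y _ => Set.countable_range _
  have hne : ¬ (Set.Ioo a b ⊆ ⋃ y ∈ B, Set.range fun n : ℤ => y + (n : ℝ)) := by
    intro hsub
    exact (Cardinal.Real.Ioo_countable_iff.1 (hc.mono hsub)).not_gt hab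
  obtain ⟨s, hs, hs2⟩ := Set.not_subset.1 hne
  refine ⟨s, hs.1, hs.2, fun y hy n hn => hs2 ?_⟩
  simp only [Set.mem_iUnion]
  exact ⟨y, hy, n, by linarith⟩

end

end Pool.Agent.KU
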